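import Pool.Agent.helper77.BND.SpecB

/-!
# Row bnd:BFG (MP_376aaf_an): the family of an element of a block algebra
-/

set_option autoImplicit false

open scoped Topology Matrix
open Filter Finset

namespace Pool.Agent.BND

open Pool.Agent.CZ Pool.Agent.PV

theorem BFG (hXSU : XSU_stmt) (hPMA : PMA_stmt) (hEME : EME_stmt) (hBDM : BDM_stmt) (hFLV : FLV_stmt) (hEMC : EMC_stmt) : BFG_stmt := by
  intro B M _ α A _ ι u c hC m a ha
  classical
  have hlv : IsLv (B.L m) := hC.bs.lv m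
  obtain ⟨hE1, hE2, hE3, -⟩ := hEME (B.L m) hlv
  have hex : ∀ (e : ℕ) (s : ℝ) (i : ℕ), ∃ x : ↥(XS B), e < (B.L m).N → s ∈ U → i < (B.L m).h e →
      x.1 m = emb (B.L m) e s i := by
    intro e s i
    by_cases h : e < (B.L m).N ∧ s ∈ U ∧ i < (B.L m).h e
    · obtain ⟨x, hx⟩ := hXSU B M hC.bs m (emb (B.L m) e s i) ⟨e, s, i, h.1, h.2.1, h.2.2, rfl⟩
      exact ⟨x, fun _ _ _ => hx⟩
    · have h0 : 0 < (B.L m).N := hlv.n0.trans_le hlv.nN
      obtain ⟨x, hx⟩ := hXSU B M hC.bs m (emb (B.L m) 0 0 0)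
        ⟨0, 0, 0, h0, ⟨le_refl _, zero_le_one⟩, hlv.pos 0 h0, rfl⟩
      exact ⟨x, fun h1 h2 h3 => absurd ⟨h1, h2, h3⟩ h⟩
  choose X hX using hex
  have hval : ∀ (x : ↥(XS B)) (e : ℕ) (s : ℝ) (i : ℕ), e < (B.L m).N → s ∈ U → i < (B.L m).h e →
      x.1 m = emb (B.L m) e s i → ∀ n : ℤ, c n a x =
        if 0 ≤ (i : ℤ) - n ∧ (i : ℤ) - n < (B.L m).h e then
          c ((i : ℤ) - (((i : ℤ) - n).toNat : ℕ)) a (X e s i) else 0 := by
    intro x e s i he hs hi hx n
    split_ifs with h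
    · have h1 : (i : ℤ) - (((i : ℤ) - n).toNat : ℕ) = n := by
        rw [Int.toNat_of_nonneg h.1]
        ring
      rw [h1]
      exact ha.lev n x (X e s i) (by rw [hx, hX e s i he hs hi])
    · exact ha.van n x e s i he hs hi hx h
  refine ⟨fun e s i j => c ((i : ℤ) - j) a (X e s i), ⟨?_, ?_, ?_⟩, hval⟩
  · intro e i j he hi hj
    rw [continuousOn_iff_isClosed]
    intro C hCl
    refine ⟨(fun s => emb (B.L m) e s i) ⁻¹' ((fun x : ↥(XS B) => x.1 m) ''
      ((c ((i : ℤ) - j) a) ⁻¹' C)), ?_, ?_⟩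
    · refine IsClosed.preimage (hE3 e i) ?_
      have h1 : IsCompact ((c ((i : ℤ) - j) a) ⁻¹' C) :=
        (hCl.preimage (c ((i : ℤ) - j) a).continuous).isCompact
      have h2 : Continuous fun x : ↥(XS B) => x.1 m :=
        (continuous_apply m).comp continuous_subtype_val
      exact (h1.image h2).isClosed
    · ext s
      constructor
      · rintro ⟨h1, h2⟩
        exact ⟨⟨X e s i, h1, hX e s i he h2 hi⟩, h2⟩
      · rintro ⟨⟨x, hx1, hx2⟩, h2⟩
        refine ⟨?_, h2⟩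
        have h3 : c ((i : ℤ) - j) a x = c ((i : ℤ) - j) a (X e s i) := by
          refine ha.lev _ x (X e s i) ?_
          rw [hX e s i he h2 hi]
          exact hx2
        change c ((i : ℤ) - j) a (X e s i) ∈ C
        rw [← h3]
        exact hx1
  · intro e s i j he hs hi hj
    have he' : e < (B.L m).N := he.trans_le hlv.nN
    have h0 : (0 : ℝ) ∈ U := ⟨le_refl _, zero_le_one⟩
    refine ha.lev _ (X e s i) (X e 0 i) ?_
    rw [hX e s i he' hs hi, hX e 0 i he' h0 hi]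
    exact hE2 e s i he
  · intro e i j b he hi hj
    have hb : (if b then 1 else 0 : ℝ) ∈ U := by
      cases b <;> simp [U]
    have h0 : (0 : ℝ) ∈ U := ⟨le_refl _, zero_le_one⟩
    have hsum := hlv.ht e he b
    have hi' : i < (((B.L m).W e b).map (B.L m).h).sum := by rw [hsum]; exact hi
    have hj' : j < (((B.L m).W e b).map (B.L m).h).sum := by rw [hsum]; exact hj
    obtain ⟨-, -, -, hB4, hB5⟩ := hBDM (B.L m).h ((B.L m).W e b)
    obtain ⟨hp, P, Q, hPQ, hip⟩ := hFLV (B.L m).h ((B.L m).W e b) i hi'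
    obtain ⟨hq, -⟩ := hFLV (B.L m).h ((B.L m).W e b) j hj'
    have hemb := hE1 e i b he hi
    have hmem : (fl (B.L m).h ((B.L m).W e b) i).1 < (B.L m).n := by
      refine hlv.mem e he b _ ?_
      have h9 : ∀ (v : ℕ) (w : List ℕ), w = P ++ v :: Q → v ∈ w := fun v w hw => by
        rw [hw]
        simp
      exact h9 _ _ hPQ
    have hmem' : (fl (B.L m).h ((B.L m).W e b) i).1 < (B.L m).N := hmem.trans_le hlv.nN
    have hx := hX e (if b then 1 else 0) i he hb hi
    rw [hemb] at hx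
    have h1 := hval (X e (if b then 1 else 0) i) _ 0 _ hmem' h0 hp hx ((i : ℤ) - j)
    change c ((i : ℤ) - j) a (X e (if b then 1 else 0) i) = _
    rw [h1]
    unfold bd
    by_cases hfp : fp (B.L m).h ((B.L m).W e b) i = fp (B.L m).h ((B.L m).W e b) j
    · rw [if_pos hfp]
      obtain ⟨h2, h3⟩ := hB4 i j hi' hj' hfp
      have h4 : ((fl (B.L m).h ((B.L m).W e b) i).2 : ℤ) - ((i : ℤ) - j) =
          ((fl (B.L m).h ((B.L m).W e b) j).2 : ℕ) := by
        rw [h3]
        ring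
      rw [h4, if_pos ⟨Int.natCast_nonneg _, by rw [h2]; exact_mod_cast hq⟩, Int.toNat_natCast]
    · rw [if_neg hfp, if_neg]
      rintro ⟨h2, h3⟩
      apply hfp
      obtain ⟨q, hq'⟩ := Int.eq_ofNat_of_zero_le h2
      rw [hq'] at h3
      have h4 : q < (B.L m).h (fl (B.L m).h ((B.L m).W e b) i).1 := by exact_mod_cast h3
      obtain ⟨-, h5, -⟩ := hB5 i q hi' h4
      have h6 : i - (fl (B.L m).h ((B.L m).W e b) i).2 + q = j := by
        omega
      rw [h6] at h5
      exact h5.symm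

end Pool.Agent.BND
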