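import Pool.Agent.helper77.BND.SpecB
import Pool.Agent.helper37.CZ.SA

/-!
# Row bnd:BFM (MP_376aaf_an): products in the block algebras
-/

set_option autoImplicit false

open scoped Topology Matrix
open Filter Finset

namespace Pool.Agent.BND

open Pool.Agent.CZ Pool.Agent.PV

theorem BFM_flv (h : ℕ → ℕ) : ∀ (u : List ℕ) (i : ℕ), i < (u.map h).sum →
    (fl h u i).2 < h (fl h u i).1 ∧ (fl h u i).2 ≤ i ∧ (fl h u i).1 ∈ u := by
  intro u
  induction u with
  | nil =>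
    intro i hi
    simp at hi
  | cons a u ih =>
    intro i hi
    rw [List.map_cons, List.sum_cons] at hi
    unfold fl
    by_cases h1 : i < h a
    · rw [if_pos h1]
      exact ⟨h1, le_refl _, by simp⟩
    · rw [if_neg h1]
      obtain ⟨h2, h3, h4⟩ := ih (i - h a) (by omega)
      exact ⟨h2, h3.trans (Nat.sub_le _ _), List.mem_cons_of_mem _ h4⟩

/-- block diagonal matrices and diagonals -/
theorem BFM_bd (hBDM : BDM_stmt) (h : ℕ → ℕ) (u : List ℕ) (Y : ℕ → ℕ → ℕ → ℂ) (i : ℕ) (hi : i < (u.map h).sum) (n : ℤ) :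
    (if 0 ≤ ((fl h u i).2 : ℤ) - n ∧ ((fl h u i).2 : ℤ) - n < h (fl h u i).1 then
      Y (fl h u i).1 (fl h u i).2 (((fl h u i).2 : ℤ) - n).toNat else 0) =
    if 0 ≤ (i : ℤ) - n ∧ (i : ℤ) - n < (u.map h).sum then bd h u Y i ((i : ℤ) - n).toNat else 0 := by
  obtain ⟨-, -, -, hB4, hB5⟩ := hBDM h u
  obtain ⟨hp, hip, -⟩ := BFM_flv h u i hi
  by_cases h1 : 0 ≤ ((fl h u i).2 : ℤ) - n ∧ ((fl h u i).2 : ℤ) - n < h (fl h u i).1
  · rw [if_pos h1]
    obtain ⟨q, hq⟩ := Int.eq_ofNat_of_zero_le h1.1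
    have hq2 : q < h (fl h u i).1 := by
      have := h1.2
      rw [hq] at this
      exact_mod_cast this
    obtain ⟨h3, h4, h5⟩ := hB5 i q hi hq2
    have h6 : (i : ℤ) - n = ((i - (fl h u i).2 + q : ℕ) : ℤ) := by
      omega
    rw [hq, h6, if_pos ⟨Int.natCast_nonneg _, by exact_mod_cast h3⟩, Int.toNat_natCast, Int.toNat_natCast]
    unfold bd
    rw [if_pos h4.symm, h5]
  · rw [if_neg h1]
    split_ifs with h2
    · obtain ⟨j, hj⟩ := Int.eq_ofNat_of_zero_le h2.1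
      have hj2 : j < (u.map h).sum := by
        have := h2.2
        rw [hj] at this
        exact_mod_cast this
      rw [hj]
      unfold bd
      have h3 : ((j : ℕ) : ℤ).toNat = j := Int.toNat_natCast j
      rw [h3, if_neg]
      intro h4
      obtain ⟨h5, h6⟩ := hB4 i j hi hj2 h4
      obtain ⟨h7, -⟩ := BFM_flv h u j hj2
      apply h1
      have h8 : ((fl h u i).2 : ℤ) - n = ((fl h u j).2 : ℤ) := by
        have : (i : ℤ) - n = (j : ℤ) := hj
        linarith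
      rw [h8]
      refine ⟨Int.natCast_nonneg _, ?_⟩
      rw [h5]
      exact_mod_cast h7
    · rfl

theorem BFM_can (hSUZ : SUZ_stmt) (hSMM : SMM_stmt) (B : BS) (M : ℕ → ℕ → ℕ → ℕ) [CompactSpace ↥(XS B)] (α : ↥(XS B) ≃ₜ ↥(XS B)) (A : Type) [CStarAlgebra A]
    (ι : C(↥(XS B), ℂ) →⋆ₐ[ℂ] A) (u : unitary A) (c : ℤ → A →ₗ[ℂ] C(↥(XS B), ℂ)) (hC : CPr B M α ι u c) (m : ℕ)
    (a b : A) (G G' : ℕ → ℝ → ℕ → ℕ → ℂ) (ha : Sm ι u a) (hb : Sm ι u b)
    (hG : Fam B c m a G) (hG' : Fam B c m b G') (x : ↥(XS B)) (e : ℕ) (s : ℝ) (i : ℕ)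
    (hcan : Can (B.L m) e s) (hi : i < (B.L m).h e) (hx : x.1 m = emb (B.L m) e s i) (n : ℤ) :
    c n (a * b) x = if 0 ≤ (i : ℤ) - n ∧ (i : ℤ) - n < (B.L m).h e then
      ∑ k ∈ range ((B.L m).h e), G e s i k * G' e s k ((i : ℤ) - n).toNat else 0 := by
  classical
  have h1 := (hSMM _ α A ι u c hC.cov a b ha hb).2 n x
  have hf : ∀ k : ℤ, c k a x * c (n - k) b ((α ^ (-k)) x) =
      if 0 ≤ (i : ℤ) - k ∧ (i : ℤ) - k < (B.L m).h e then
        G e s i ((i : ℤ) - k).toNat * (if 0 ≤ (i : ℤ) - n ∧ (i : ℤ) - n < (B.L m).h e then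
          G' e s ((i : ℤ) - k).toNat ((i : ℤ) - n).toNat else 0) else 0 := by
    intro k
    rw [hG x e s i hcan.1 hcan.2.2 hi hx k]
    by_cases h2 : 0 ≤ (i : ℤ) - k ∧ (i : ℤ) - k < (B.L m).h e
    · rw [if_pos h2, if_pos h2]
      have h3 := hSUZ B M hC.bs α hC.al hC.ali x m e s i hcan hi hx k h2.1 h2.2
      have h4 : (((i : ℤ) - k).toNat : ℤ) = (i : ℤ) - k := Int.toNat_of_nonneg h2.1
      have h5 : ((i : ℤ) - k).toNat < (B.L m).h e := by
        have := h2.2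
        omega
      rw [hG' _ e s _ hcan.1 hcan.2.2 h5 h3 (n - k), h4]
      have h6 : (i : ℤ) - k - (n - k) = (i : ℤ) - n := by ring
      rw [h6]
    · rw [if_neg h2, if_neg h2, zero_mul]
  have hinj : Function.Injective fun p : ℕ => (i : ℤ) - p := by
    intro p q hpq
    simp only at hpq
    omega
  set S : Finset ℤ := (range ((B.L m).h e)).image (fun p : ℕ => (i : ℤ) - p) with hS
  have h2 : HasSum (fun k : ℤ => c k a x * c (n - k) b ((α ^ (-k)) x))
      (∑ k ∈ S, c k a x * c (n - k) b ((α ^ (-k)) x)) := by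
    refine hasSum_sum_of_ne_finset_zero fun k hk => ?_
    rw [hf k, if_neg]
    rintro ⟨h3, h4⟩
    apply hk
    rw [hS, mem_image]
    exact ⟨((i : ℤ) - k).toNat, by rw [mem_range]; omega, by omega⟩
  rw [h1.unique h2, hS, sum_image (fun p _ q _ h => hinj h)]
  have h3 : ∀ p ∈ range ((B.L m).h e), c ((i : ℤ) - p) a x * c (n - ((i : ℤ) - p)) b ((α ^ (-((i : ℤ) - p))) x) =
      G e s i p * (if 0 ≤ (i : ℤ) - n ∧ (i : ℤ) - n < (B.L m).h e then
          G' e s p ((i : ℤ) - n).toNat else 0) := by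
    intro p hp
    rw [mem_range] at hp
    rw [hf]
    have h4 : (i : ℤ) - ((i : ℤ) - p) = p := by ring
    rw [h4, if_pos ⟨Int.natCast_nonneg _, by exact_mod_cast hp⟩, Int.toNat_natCast]
  rw [sum_congr rfl h3]
  split_ifs with h5
  · rfl
  · simp

theorem BFM_sm (hSMA : SMA_stmt) (B : BS) [CompactSpace ↥(XS B)] (A : Type) [CStarAlgebra A]
    (ι : C(↥(XS B), ℂ) →⋆ₐ[ℂ] A) (u : unitary A) (c : ℤ → A →ₗ[ℂ] C(↥(XS B), ℂ)) (m : ℕ)
    (a : A) (ha : InS B ι u c m a) : Sm ι u a := by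
  classical
  obtain ⟨h1, h2, -, h3, -⟩ := hSMA _ A ι u
  have hsum : ∀ (s : Finset ℤ), Sm ι u (∑ n ∈ s, ι (c n a) * up u n) := by
    intro s
    refine Finset.induction_on s (by simpa using h2) fun k s hk ih => ?_
    rw [sum_insert hk]
    exact h3 _ _ (h1 _ _) ih
  have h4 := ha.sum (∑ e ∈ range (B.L m).N, (B.L m).h e) fun e he =>
    single_le_sum (f := fun e => (B.L m).h e) (fun _ _ => Nat.zero_le _) (mem_range.2 he)
  rw [h4]
  exact hsum _

theorem BFM (hSUZ : SUZ_stmt) (hEME : EME_stmt) (hBFG : BFG_stmt) (hBDM : BDM_stmt) (hXSU : XSU_stmt) (hSMA : SMA_stmt) (hSMM : SMM_stmt) : BFM_stmt := by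
  intro B M _ α A _ ι u c hC m a b G G' ha hb hGF hG'F hG hG'
  classical
  have hlv : IsLv (B.L m) := hC.bs.lv m
  obtain ⟨hE1, hE2, hE3, -⟩ := hEME (B.L m) hlv
  have hsa := BFM_sm hSMA B A ι u c m a ha
  have hsb := BFM_sm hSMA B A ι u c m b hb
  have h0U : (0 : ℝ) ∈ U := ⟨le_refl _, zero_le_one⟩
  have hform : ∀ (x : ↥(XS B)) (e : ℕ) (s : ℝ) (i : ℕ), e < (B.L m).N → s ∈ U → i < (B.L m).h e →
      x.1 m = emb (B.L m) e s i → ∀ n : ℤ, c n (a * b) x =
        if 0 ≤ (i : ℤ) - n ∧ (i : ℤ) - n < (B.L m).h e then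
          ∑ k ∈ range ((B.L m).h e), G e s i k * G' e s k ((i : ℤ) - n).toNat else 0 := by
    intro x e s i he hs hi hx n
    by_cases hcan : Can (B.L m) e s
    · exact BFM_can hSUZ hSMM B M α A ι u c hC m a b G G' hsa hsb hG hG' x e s i hcan hi hx n
    · have h1 : ¬ e < (B.L m).n := fun h => hcan ⟨he, Or.inl h, hs⟩
      have h2 : ¬ (0 < s ∧ s < 1) := fun h => hcan ⟨he, Or.inr h, hs⟩
      have h3 : ∃ bb : Bool, s = if bb then 1 else 0 := by
        rcases eq_or_lt_of_le hs.1 with h | h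
        · exact ⟨false, by simp [← h]⟩
        · refine ⟨true, ?_⟩
          have h4 : ¬ s < 1 := fun h5 => h2 ⟨h, h5⟩
          have h5 : s ≤ 1 := hs.2
          simp only [if_true]
          linarith
      obtain ⟨bb, rfl⟩ := h3
      have hsum := hlv.ht e he bb
      have hi' : i < (((B.L m).W e bb).map (B.L m).h).sum := by rw [hsum]; exact hi
      obtain ⟨hp, hip, hmem⟩ := BFM_flv (B.L m).h ((B.L m).W e bb) i hi'
      have hv : (fl (B.L m).h ((B.L m).W e bb) i).1 < (B.L m).n := hlv.mem e he bb _ hmem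
      have hv' := hv.trans_le hlv.nN
      rw [hE1 e i bb he hi] at hx
      have h4 := BFM_can hSUZ hSMM B M α A ι u c hC m a b G G' hsa hsb hG hG' x _ 0 _
        ⟨hv', Or.inl hv, h0U⟩ hp hx n
      have h5 := BFM_bd hBDM (B.L m).h ((B.L m).W e bb)
        (fun v p q => ∑ k ∈ range ((B.L m).h v), G v 0 p k * G' v 0 k q) i hi' n
      rw [h4]
      refine h5.trans ?_
      rw [hsum]
      by_cases h6 : 0 ≤ (i : ℤ) - n ∧ (i : ℤ) - n < (B.L m).h e
      · rw [if_pos h6, if_pos h6]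
        have h7 : ((i : ℤ) - n).toNat < (B.L m).h e := by
          have := h6.1
          have := h6.2
          omega
        have h8 := (hBDM (B.L m).h ((B.L m).W e bb)).1 Unit (fun _ v => G v 0) (fun _ v => G' v 0)
          i ((i : ℤ) - n).toNat hi' (by rw [hsum]; exact h7)
        simp only [univ_unique, sum_singleton] at h8
        rw [← h8, hsum]
        refine sum_congr rfl fun k hk => ?_
        rw [mem_range] at hk
        rw [hGF.ends e i k bb he hi hk, hG'F.ends e k _ bb he hk h7]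
      · rw [if_neg h6, if_neg h6]
  have hFS : ∀ x : ↥(XS B), ∃ e s i, e < (B.L m).N ∧ s ∈ U ∧ i < (B.L m).h e ∧
      x.1 m = emb (B.L m) e s i := fun x => (x.2 m).1
  refine ⟨⟨?_, ?_, ?_⟩, hform⟩
  · intro n x y hxy
    obtain ⟨e, s, i, he, hs, hi, hx⟩ := hFS x
    rw [hform x e s i he hs hi hx n, hform y e s i he hs hi (hxy ▸ hx) n]
  · intro n x e s i he hs hi hx h
    rw [hform x e s i he hs hi hx n, if_neg h]
  · intro H hH
    obtain ⟨σ, hσ, f, -, hf⟩ := (hSMM _ α A ι u c hC.cov a b hsa hsb).1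
    have h1 : ∀ n, c n (a * b) = f n := SMC _ α A ι u c hC.cov f (a * b) hf
    have h2 : HasSum (fun n => ι (f n) * up u n) (∑ n ∈ Icc (-(H : ℤ)) H, ι (f n) * up u n) := by
      refine hasSum_sum_of_ne_finset_zero fun n hn => ?_
      have h3 : f n = 0 := by
        rw [← h1 n]
        ext x
        obtain ⟨e, s, i, he, hs, hi, hx⟩ := hFS x
        rw [hform x e s i he hs hi hx n, if_neg]
        · rfl
        · rintro ⟨h4, h5⟩
          apply hn
          have h6 := hH e he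
          rw [mem_Icc]
          constructor <;> omega
      rw [h3, map_zero, zero_mul]
    have h3 : a * b = ∑ n ∈ Icc (-(H : ℤ)) H, ι (f n) * up u n := hf.unique h2
    rw [h3]
    refine sum_congr rfl fun n _ => ?_
    rw [← h3, h1 n]

end Pool.Agent.BND
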